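import Pool.Agent.W85.GelB1

/-!
# Integral matrix representation with constant matrices for algebraic numbers
-/

set_option autoImplicit false

open Polynomial

namespace Pool.Agent.W85.GEL2

open Pool.Agent.W85.GelB1

/-- Elements of a field algebraic over `ℚ` that are linearly independent over `ℚ` are linearly
independent over `ℤ[θ]`. -/
theorem indep_poly (θ : ℂ) (hθ : Transcendental ℚ θ) (K0 : IntermediateField ℚ ℂ)
    (hK0 : Algebra.IsAlgebraic ℚ K0) {p : ℕ} (u : Fin p → K0) (hu : LinearIndependent ℚ u)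
    (M : Fin p → Polynomial ℤ) (hM : ∑ i, aeval θ (M i) * (u i : ℂ) = 0) : M = 0 := by
  classical
  have hθ0 : Transcendental K0 θ := fun h => hθ (IsAlgebraic.restrictScalars ℚ h)
  set P : Polynomial K0 := ∑ i, (M i).map (Int.castRingHom K0) * C (u i) with hP
  have hP0 : aeval θ P = 0 := by
    rw [hP, map_sum, ← hM]
    refine Finset.sum_congr rfl fun i _ => ?_
    rw [map_mul, aeval_C]
    congr 1
    exact aeval_map_algebraMap K0 θ (M i)
  have hP1 : P = 0 := by
    by_contra hne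
    exact hθ0 ⟨P, hne, hP0⟩
  funext i
  ext n
  have h1 : P.coeff n = 0 := by rw [hP1]; simp
  rw [hP, finsetSum_coeff] at h1
  have h2 : ∑ i, ((M i).coeff n : ℚ) • u i = 0 := by
    rw [← h1]
    refine Finset.sum_congr rfl fun i _ => ?_
    rw [coeff_mul_C, coeff_map, Algebra.smul_def]
    congr 1
  have h3 := Fintype.linearIndependent_iff.mp hu _ h2 i
  simpa using h3

theorem aeval_mem (θ : ℂ) (p : Polynomial ℤ) :
    (aeval θ p : ℂ) ∈ IntermediateField.adjoin ℚ {θ} := by
  have h1 : (aeval θ p : ℂ) = aeval θ (p.map (Int.castRingHom ℚ)) :=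
    (aeval_map_algebraMap ℚ θ p).symm
  rw [h1]
  exact IntermediateField.algebra_adjoin_le_adjoin ℚ {θ}
    (Algebra.adjoin_singleton_eq_range_aeval ℚ θ ▸ ⟨_, rfl⟩)

theorem aeval_eq_zero (θ : ℂ) (hθ : Transcendental ℚ θ) (p : Polynomial ℤ)
    (h : (aeval θ p : ℂ) = 0) : p = 0 := by
  have h5 : aeval θ (p.map (Int.castRingHom ℚ)) = (0 : ℂ) := by
    rw [← h]
    exact aeval_map_algebraMap ℚ θ p
  have h6 : p.map (Int.castRingHom ℚ) = 0 := by
    by_contra hne
    exact hθ ⟨_, hne, h5⟩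
  exact (Polynomial.map_eq_zero_iff (RingHom.injective_int (Int.castRingHom ℚ))).mp h6

theorem indep_field (θ : ℂ) (hθ : Transcendental ℚ θ) (K0 : IntermediateField ℚ ℂ)
    (hK0 : Algebra.IsAlgebraic ℚ K0) {p : ℕ} (u : Fin p → K0) (hu : LinearIndependent ℚ u) :
    LinearIndependent (IntermediateField.adjoin ℚ {θ}) (fun i => (u i : ℂ)) := by
  classical
  rw [Fintype.linearIndependent_iff]
  intro g hg
  obtain ⟨b, M, hb, hM⟩ := common θ (fun i => ((g i : IntermediateField.adjoin ℚ {θ}) : ℂ))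
    (fun i => (g i).2)
  have h0 : ∑ i, aeval θ (M i) * (u i : ℂ) = 0 := by
    have h1 : ∑ i, aeval θ (M i) * (u i : ℂ) = aeval θ b * ∑ i, g i • (u i : ℂ) := by
      rw [Finset.mul_sum]
      refine Finset.sum_congr rfl fun i _ => ?_
      rw [hM i, Algebra.smul_def]
      rw [mul_assoc]
      rfl
    rw [h1, hg, mul_zero]
  have hM0 := indep_poly θ hθ K0 hK0 u hu M h0
  intro i
  have h1 := hM i
  rw [hM0] at h1
  simp only [Pi.zero_apply, map_zero] at h1
  have h2 : ((g i : IntermediateField.adjoin ℚ {θ}) : ℂ) = 0 := by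
    rcases mul_eq_zero.mp h1.symm with h | h
    · exact absurd h hb
    · exact h
  exact_mod_cast h2

set_option synthInstance.maxHeartbeats 400000 in
set_option maxHeartbeats 1000000 in
theorem exists_rep2 (θ : ℂ) (hθ : Transcendental ℚ θ) {m m' : ℕ} (ξ : Fin m → ℂ)
    (hξ : ∀ j, IsAlgebraic (IntermediateField.adjoin ℚ {θ}) (ξ j)) (ζ : Fin m' → ℂ)
    (hζ : ∀ j, IsAlgebraic ℚ (ζ j)) :
    ∃ (ν : ℕ) (v : Fin (ν + 1) → ℂ) (b : Polynomial ℤ) (b₀ : ℤ)
      (M : Fin m → Matrix (Fin (ν + 1)) (Fin (ν + 1)) (Polynomial ℤ))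
      (N : Fin m' → Matrix (Fin (ν + 1)) (Fin (ν + 1)) ℤ),
      b ≠ 0 ∧ b₀ ≠ 0 ∧
      (∀ u : Fin (ν + 1) → Polynomial ℤ, ∑ i, aeval θ (u i) * v i = 0 → u = 0) ∧
      (∀ j i, ∑ k, aeval θ (M j i k) * v k = aeval θ b * ξ j * v i) ∧
      (∀ j i, ∑ k, (N j i k : ℂ) * v k = (b₀ : ℂ) * ζ j * v i) := by
  classical
  set F := IntermediateField.adjoin ℚ {θ} with hF
  set K0 := IntermediateField.adjoin ℚ (Set.range ζ) with hK0
  have hK0f : FiniteDimensional ℚ K0 := by
    apply IntermediateField.finiteDimensional_adjoin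
    rintro x ⟨j, rfl⟩
    exact (hζ j).isIntegral
  have hK0a : Algebra.IsAlgebraic ℚ K0 := Algebra.IsAlgebraic.of_finite ℚ K0
  set p := Module.finrank ℚ K0 with hp
  have hppos : 0 < p := Module.finrank_pos
  let U : Module.Basis (Fin p) ℚ K0 := Module.finBasis ℚ K0
  have hUind := indep_field θ hθ K0 hK0a U U.linearIndependent
  -- the field `K1`
  set K1 := IntermediateField.adjoin F (Set.range ζ) with hK1
  have hK0K1 : ∀ x ∈ K0, x ∈ K1 := by
    intro x hx
    have h1 : K0 ≤ K1.restrictScalars ℚ := by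
      rw [hK0, IntermediateField.adjoin_le_iff]
      intro y hy
      exact IntermediateField.subset_adjoin F _ hy
    exact h1 hx
  let u1 : Fin p → K1 := fun i => ⟨(U i : ℂ), hK0K1 _ (U i).2⟩
  have hu1 : LinearIndependent F u1 := by
    have h1 : LinearIndependent F (K1.val.toLinearMap ∘ u1) := hUind
    exact LinearIndependent.of_comp _ h1
  -- the span
  have hspanK0 : ∀ x ∈ K0, x ∈ Submodule.span F (Set.range fun i => (U i : ℂ)) := by
    intro x hx
    have h1 := U.sum_repr ⟨x, hx⟩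
    have h2 := congrArg (fun y : K0 => (y : ℂ)) h1
    simp only [AddSubmonoidClass.coe_finsetSum] at h2
    rw [← h2]
    refine Submodule.sum_mem _ fun i _ => ?_
    have h3 : (((U.repr ⟨x, hx⟩ i) • U i : K0) : ℂ) =
        (algebraMap ℚ F (U.repr ⟨x, hx⟩ i)) • (U i : ℂ) := by
      rw [Algebra.smul_def, Algebra.smul_def]
      rfl
    rw [h3]
    exact Submodule.smul_mem _ _ (Submodule.subset_span ⟨i, rfl⟩)
  have hmulspan : ∀ x ∈ Submodule.span F (Set.range fun i => (U i : ℂ)),
      ∀ y ∈ Submodule.span F (Set.range fun i => (U i : ℂ)),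
      x * y ∈ Submodule.span F (Set.range fun i => (U i : ℂ)) := by
    intro x hx y hy
    have h1 : x * y ∈ Submodule.span F (Set.range fun i => (U i : ℂ)) *
        Submodule.span F (Set.range fun i => (U i : ℂ)) := Submodule.mul_mem_mul hx hy
    rw [Submodule.span_mul_span] at h1
    refine (Submodule.span_le.mpr ?_) h1
    rintro z hz
    obtain ⟨a, ⟨i, rfl⟩, c, ⟨j, rfl⟩, rfl⟩ := Set.mem_mul.mp hz
    exact hspanK0 _ (U i * U j).2
  have hspan1 : ∀ x ∈ K1, x ∈ Submodule.span F (Set.range fun i => (U i : ℂ)) := by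
    intro x hx
    have halg : K1.toSubalgebra = Algebra.adjoin F (Set.range ζ) := by
      rw [hK1]
      apply IntermediateField.adjoin_toSubalgebra_of_isAlgebraic
      rintro y ⟨j, rfl⟩
      exact (hζ j).tower_top F
    have hx1 : x ∈ Algebra.adjoin F (Set.range ζ) := by
      rw [← halg]; exact hx
    induction hx1 using Algebra.adjoin_induction with
    | mem y hy =>
      obtain ⟨j, rfl⟩ := hy
      exact hspanK0 _ (IntermediateField.subset_adjoin ℚ _ ⟨j, rfl⟩)
    | algebraMap r =>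
      rw [Algebra.algebraMap_eq_smul_one]
      exact Submodule.smul_mem _ _ (hspanK0 _ (one_mem K0))
    | add y z hy hz ihy ihz =>
      exact Submodule.add_mem _ (ihy (by rw [← IntermediateField.mem_toSubalgebra, halg]; exact hy))
        (ihz (by rw [← IntermediateField.mem_toSubalgebra, halg]; exact hz))
    | mul y z hy hz ihy ihz =>
      exact hmulspan _ (ihy (by rw [← IntermediateField.mem_toSubalgebra, halg]; exact hy)) _
        (ihz (by rw [← IntermediateField.mem_toSubalgebra, halg]; exact hz))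
  have hu1span : ⊤ ≤ Submodule.span F (Set.range u1) := by
    rintro ⟨x, hx⟩ -
    have h1 := hspan1 x hx
    have h2 : Submodule.span F (Set.range fun i => (U i : ℂ)) =
        (Submodule.span F (Set.range u1)).map K1.val.toLinearMap := by
      rw [Submodule.map_span, ← Set.range_comp]
      rfl
    rw [h2] at h1
    obtain ⟨y, hy, hyx⟩ := h1
    have : y = ⟨x, hx⟩ := Subtype.ext hyx
    rw [← this]
    exact hy
  let B1 : Module.Basis (Fin p) F K1 := Module.Basis.mk hu1 hu1span
  -- the field `K2`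
  set K2 := IntermediateField.adjoin K1 (Set.range ξ) with hK2
  have hK2f : FiniteDimensional K1 K2 := by
    apply IntermediateField.finiteDimensional_adjoin
    rintro x ⟨j, rfl⟩
    exact ((hξ j).tower_top K1).isIntegral
  set s := Module.finrank K1 K2 with hs
  have hspos : 0 < s := Module.finrank_pos
  let B2 : Module.Basis (Fin s) K1 K2 := Module.finBasis K1 K2
  let B3 : Module.Basis (Fin p × Fin s) F K2 := B1.smulTower B2
  obtain ⟨ν, hν⟩ : ∃ ν, p * s = ν + 1 := ⟨p * s - 1, by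
    have := Nat.mul_pos hppos hspos
    omega⟩
  let e : Fin p × Fin s ≃ Fin (ν + 1) := finProdFinEquiv.trans (finCongr hν)
  let B : Module.Basis (Fin (ν + 1)) F K2 := B3.reindex e
  have hB : ∀ t, ((B t : K2) : ℂ) = (U (e.symm t).1 : ℂ) * (B2 (e.symm t).2 : ℂ) := by
    intro t
    simp only [B, B3, Module.Basis.reindex_apply, Module.Basis.smulTower_apply, B1,
      Module.Basis.mk_apply, Algebra.smul_def]
    rfl
  let ξK : Fin m → K2 := fun j => ⟨ξ j, IntermediateField.subset_adjoin K1 _ ⟨j, rfl⟩⟩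
  let z : Fin m × Fin (ν + 1) × Fin (ν + 1) → ℂ := fun t =>
    ((B.repr (ξK t.1 * B t.2.1) t.2.2 : F) : ℂ)
  obtain ⟨b, M, hb, hM⟩ := common θ z (fun t => (B.repr (ξK t.1 * B t.2.1) t.2.2).2)
  -- constant matrices
  let ζK : Fin m' → K0 := fun j => ⟨ζ j, IntermediateField.subset_adjoin ℚ _ ⟨j, rfl⟩⟩
  let c : Fin m' → Fin p → Fin p → ℚ := fun j i k => U.repr (ζK j * U i) k
  have hc : ∀ j i, ∑ k, ((c j i k : ℚ) : ℂ) * (U k : ℂ) = ζ j * (U i : ℂ) := by
    intro j i
    have h1 := U.sum_repr (ζK j * U i)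
    have h2 := congrArg (fun y : K0 => (y : ℂ)) h1
    simp only [AddSubmonoidClass.coe_finsetSum] at h2
    simpa [c, ζK, Algebra.smul_def] using h2
  let b₀ : ℕ := ∏ j, ∏ i, ∏ k, (c j i k).den
  have hb0 : b₀ ≠ 0 := by
    refine Finset.prod_ne_zero_iff.mpr fun j _ => Finset.prod_ne_zero_iff.mpr fun i _ =>
      Finset.prod_ne_zero_iff.mpr fun k _ => (c j i k).den_nz
  have hdvd : ∀ j i k, ∃ n : ℤ, (n : ℚ) = (b₀ : ℚ) * c j i k := by
    intro j i k
    have h1 : (c j i k).den ∣ b₀ :=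
      (Finset.dvd_prod_of_mem (fun k => (c j i k).den) (Finset.mem_univ k)).trans
        ((Finset.dvd_prod_of_mem (fun i => ∏ k, (c j i k).den) (Finset.mem_univ i)).trans
          (Finset.dvd_prod_of_mem (fun j => ∏ i, ∏ k, (c j i k).den) (Finset.mem_univ j)))
    obtain ⟨d, hd⟩ := h1
    refine ⟨(c j i k).num * d, ?_⟩
    rw [hd]
    push_cast
    have h2 := Rat.mul_den_eq_num (c j i k)
    rw [← h2]
    ring
  choose n hn using hdvd
  refine ⟨ν, fun i => ((B i : K2) : ℂ), b, (b₀ : ℤ), fun j i k => M (j, i, k),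
    fun j t t' => if (e.symm t).2 = (e.symm t').2 then n j (e.symm t).1 (e.symm t').1 else 0,
    ?_, ?_, ?_, ?_, ?_⟩
  · rintro rfl
    simp at hb
  · exact_mod_cast hb0
  · intro u hu
    have h2 : ∑ i, (⟨aeval θ (u i), aeval_mem θ (u i)⟩ : F) • B i = 0 := by
      apply Subtype.ext
      rw [AddSubmonoidClass.coe_finsetSum]
      rw [ZeroMemClass.coe_zero, ← hu]
      refine Finset.sum_congr rfl fun i _ => ?_
      rw [Algebra.smul_def]
      rfl
    have h3 := Fintype.linearIndependent_iff.mp B.linearIndependent _ h2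
    funext i
    have h4 : (aeval θ (u i) : ℂ) = 0 := by
      have := congrArg (fun y : F => (y : ℂ)) (h3 i)
      simpa using this
    exact aeval_eq_zero θ hθ (u i) h4
  · intro j i
    have h1 := B.sum_repr (ξK j * B i)
    have h2 := congrArg (fun y : K2 => (y : ℂ)) h1
    simp only [AddSubmonoidClass.coe_finsetSum] at h2
    have h3 : ∑ k, z (j, i, k) * ((B k : K2) : ℂ) = ξ j * ((B i : K2) : ℂ) := by
      rw [← show ((ξK j * B i : K2) : ℂ) = ξ j * ((B i : K2) : ℂ) from rfl, ← h2]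
      refine Finset.sum_congr rfl fun k _ => ?_
      rw [Algebra.smul_def]
      rfl
    simp only [hM]
    rw [mul_assoc, ← h3, Finset.mul_sum]
    apply Finset.sum_congr rfl
    intro k _
    ring
  · intro j t
    have h1 : ∑ k, (((if (e.symm t).2 = (e.symm k).2 then n j (e.symm t).1 (e.symm k).1
        else 0 : ℤ)) : ℂ) * ((B k : K2) : ℂ) =
        ∑ q : Fin p × Fin s, (((if (e.symm t).2 = q.2 then n j (e.symm t).1 q.1
        else 0 : ℤ)) : ℂ) * ((U q.1 : ℂ) * (B2 q.2 : ℂ)) := by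
      rw [← Equiv.sum_comp e.symm]
      refine Finset.sum_congr rfl fun k _ => ?_
      rw [hB k]
    show _ = ((b₀ : ℤ) : ℂ) * ζ j * ((B t : K2) : ℂ)
    rw [hB t]
    refine h1.trans ?_
    rw [Fintype.sum_prod_type]
    have h2 : ∀ x : Fin p, ∑ y : Fin s, (((if (e.symm t).2 = y then n j (e.symm t).1 x
        else 0 : ℤ)) : ℂ) * ((U x : ℂ) * (B2 y : ℂ)) =
        (b₀ : ℂ) * (((c j (e.symm t).1 x : ℚ) : ℂ) * (U x : ℂ)) * (B2 (e.symm t).2 : ℂ) := by
      intro x
      rw [Finset.sum_eq_single (e.symm t).2]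
      · rw [if_pos rfl]
        have h3 : ((n j (e.symm t).1 x : ℤ) : ℂ) = (b₀ : ℂ) * ((c j (e.symm t).1 x : ℚ) : ℂ) := by
          have := hn j (e.symm t).1 x
          exact_mod_cast congrArg (fun r : ℚ => (r : ℂ)) this
        rw [h3]
        ring
      · intro y _ hy
        rw [if_neg (Ne.symm hy)]
        simp
      · intro h
        exact absurd (Finset.mem_univ _) h
    rw [Finset.sum_congr rfl fun x _ => h2 x, ← Finset.sum_mul, ← Finset.mul_sum, hc]
    push_cast
    ring

end Pool.Agent.W85.GEL2
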